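import Pool.Agent.Q283.LS.Stm3
import Pool.Agent.Q283.LQ.Stm

/-!
# Project LS (helper283), JOB RQ1: the rational numbers are regular (helper68)
-/

set_option autoImplicit false

namespace Pool.Agent.Q68.LS

open NumberField IsDedekindDomain Pool.Agent.Q283.LQ Pool.Agent.Q283.LS

section

variable {F : Type} [Field F] [NumberField F]

theorem rat_surj (h : Module.finrank ℚ F = 1) : Function.Surjective (algebraMap ℚ F) := by
  rw [Algebra.surjective_algebraMap_iff]
  exact (Subalgebra.bot_eq_top_of_finrank_eq_one h).symm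

theorem int_surj (h : Module.finrank ℚ F = 1) : Function.Surjective (algebraMap ℤ (𝓞 F)) := by
  intro x
  obtain ⟨q, hq⟩ := rat_surj h (x : F)
  have h1 : IsIntegral ℤ (algebraMap ℚ F q) := by
    rw [hq]
    exact x.isIntegral_coe
  have h2 : IsIntegral ℤ q := (isIntegral_algebraMap_iff (algebraMap ℚ F).injective).1 h1
  obtain ⟨n, hn⟩ := IsIntegrallyClosed.isIntegral_iff.1 h2
  refine ⟨n, ?_⟩
  apply RingOfIntegers.coe_injective
  have h3 : algebraMap (𝓞 F) F x = (x : F) := rfl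
  rw [h3, ← hq, ← hn]
  simp

/-- the isomorphism with the integers -/
noncomputable def eZ (h : Module.finrank ℚ F = 1) : ℤ ≃+* 𝓞 F :=
  RingEquiv.ofBijective (algebraMap ℤ (𝓞 F)) ⟨(algebraMap ℤ (𝓞 F)).injective_int, int_surj h⟩

theorem eZ_apply (h : Module.finrank ℚ F = 1) (n : ℤ) : eZ h n = (n : 𝓞 F) := by
  show algebraMap ℤ (𝓞 F) n = n
  simp

/-- the prime of `F` above `p` -/
theorem exists_prime (h : Module.finrank ℚ F = 1) {p : ℕ} (hp : p.Prime) :
    ∃ v : HeightOneSpectrum (𝓞 F), v.asIdeal = Ideal.span {((p : ℤ) : 𝓞 F)} := by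
  have h1 : Prime ((p : ℤ) : 𝓞 F) := by
    rw [← eZ_apply h]
    exact (MulEquiv.prime_iff (eZ h).toMulEquiv).2 (Nat.prime_iff_prime_int.1 hp)
  have h2 : (Ideal.span {((p : ℤ) : 𝓞 F)}).IsPrime := by
    rw [Ideal.span_singleton_prime h1.ne_zero]
    exact h1
  refine ⟨⟨Ideal.span {((p : ℤ) : 𝓞 F)}, h2, ?_⟩, rfl⟩
  rw [Ne, Ideal.span_singleton_eq_bot]
  exact h1.ne_zero

theorem mem_iff (h : Module.finrank ℚ F = 1) {p : ℕ} {v : HeightOneSpectrum (𝓞 F)}
    (hv : v.asIdeal = Ideal.span {((p : ℤ) : 𝓞 F)}) (n : ℤ) : (n : 𝓞 F) ∈ v.asIdeal ↔ (p : ℤ) ∣ n := by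
  rw [hv, Ideal.mem_span_singleton, ← eZ_apply h, ← eZ_apply h]
  exact map_dvd_iff (eZ h)

theorem val_p {p : ℕ} (hp : p.Prime) {v : HeightOneSpectrum (𝓞 F)}
    (hv : v.asIdeal = Ideal.span {((p : ℤ) : 𝓞 F)}) :
    v.valuation F (((p : ℤ) : F)) = WithZero.exp (-1 : ℤ) := by
  have h0 : ((p : ℤ) : 𝓞 F) ≠ 0 := by exact_mod_cast hp.ne_zero
  have h1 := v.intValuation_singleton h0 hv
  rw [← h1, ← v.valuation_of_algebraMap (K := F)]
  simp

theorem val_one (h : Module.finrank ℚ F = 1) {p : ℕ} {v : HeightOneSpectrum (𝓞 F)}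
    (hv : v.asIdeal = Ideal.span {((p : ℤ) : 𝓞 F)}) {n : ℤ} (hn : ¬ (p : ℤ) ∣ n) :
    v.valuation F ((n : ℤ) : F) = 1 := by
  have h1 := (v.valuation_eq_one_iff_notMem (K := F) (r := (n : 𝓞 F))).2 (by rw [mem_iff h hv]; exact hn)
  simpa using h1

theorem exists_exp {x : WithZero (Multiplicative ℤ)} (hx : x ≠ 0) : ∃ k : ℤ, x = WithZero.exp k :=
  ⟨WithZero.log x, (WithZero.exp_log hx).symm⟩

theorem od_of (h : Module.finrank ℚ F = 1) {p : ℕ} (hp : p.Prime) {v : HeightOneSpectrum (𝓞 F)}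
    (hv : v.asIdeal = Ideal.span {((p : ℤ) : 𝓞 F)}) {m : ℤ} (hm : ¬ (p : ℤ) ∣ m) {R : F} (hR : R ≠ 0) :
    Od v ((((p : ℤ) * m : ℤ) : F) * R ^ 2) := by
  obtain ⟨k, hk⟩ := exists_exp ((Valuation.ne_zero_iff (v.valuation F)).2 hR)
  refine ⟨k - 1, ?_⟩
  rw [Int.cast_mul, map_mul, map_mul, map_pow, val_p hp hv, val_one h hv hm, hk, mul_one, ← WithZero.exp_nsmul,
    ← WithZero.exp_add]
  congr 1
  simp
  ring

end

theorem rq1 (hBAS : Pool.Agent.Q283.LQ.S_BAS) : Pool.Agent.Q283.LS.S_RQ1 := by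
  intro F _ _ h
  obtain ⟨v2, hv2⟩ := exists_prime h Nat.prime_two
  have hDy : ∀ v : HeightOneSpectrum (𝓞 F), Dy v → v = v2 := by
    intro v hv
    apply HeightOneSpectrum.ext
    apply le_antisymm
    · intro x hx
      obtain ⟨n, rfl⟩ := int_surj h x
      have hn : (algebraMap ℤ (𝓞 F)) n = (n : 𝓞 F) := by simp
      rw [hn] at hx ⊢
      rw [mem_iff h hv2]
      by_contra hcon
      apply v.isPrime.ne_top
      rw [Ideal.eq_top_iff_one]
      have h3 : (1 : 𝓞 F) = (n : 𝓞 F) - 2 * ((n / 2 : ℤ) : 𝓞 F) := by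
        have h4 : (1 : ℤ) = n - 2 * (n / 2) := by
          have : ¬ (2 : ℤ) ∣ n := hcon
          omega
        exact_mod_cast congrArg (fun z : ℤ => (z : 𝓞 F)) h4
      rw [h3]
      exact v.asIdeal.sub_mem hx (Ideal.mul_mem_right _ _ hv)
    · rw [hv2, Ideal.span_singleton_le_iff_mem]
      have h3 : (2 : 𝓞 F) ∈ v.asIdeal := hv
      simpa using h3
  have hD2 : Dy v2 := by
    show (2 : 𝓞 F) ∈ v2.asIdeal
    rw [hv2]
    apply Ideal.subset_span
    simp
  obtain ⟨b1, b2, b3, b4, b5, b6⟩ := hBAS F v2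
  refine ⟨fun v v' hv hv' => (hDy v hv).trans (hDy v' hv').symm, fun a ha h1 h2 => ?_⟩
  have hL := h2 v2 hD2
  obtain ⟨q, rfl⟩ := rat_surj h a
  have hq0 : q ≠ 0 := by
    rintro rfl
    exact ha (map_zero _)
  -- the squarefree part
  obtain ⟨A, b, hbA, hA⟩ : ∃ A b : ℕ, b ^ 2 * A = q.num.natAbs * q.den ∧ Squarefree A := by
    obtain ⟨A, b, h3, h4⟩ := Nat.sq_mul_squarefree (q.num.natAbs * q.den)
    exact ⟨A, b, h3, h4⟩
  have hnum : q.num ≠ 0 := Rat.num_ne_zero.2 hq0
  have hden : (q.den : ℚ) ≠ 0 := by exact_mod_cast q.den_nz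
  have hb0 : b ≠ 0 := by
    rintro rfl
    have h3 : q.num.natAbs * q.den = 0 := by rw [← hbA]; simp
    rcases Nat.mul_eq_zero.1 h3 with h4 | h4
    · exact hnum (Int.natAbs_eq_zero.1 h4)
    · exact q.den_nz h4
  obtain ⟨ε, hε, hεn⟩ : ∃ ε : ℤ, (ε = 1 ∨ ε = -1) ∧ q.num = ε * q.num.natAbs := by
    rcases le_total 0 q.num with h3 | h3
    · exact ⟨1, Or.inl rfl, by omega⟩
    · exact ⟨-1, Or.inr rfl, by omega⟩
  have hqe : q = ((ε * A : ℤ) : ℚ) * ((b : ℚ) / q.den) ^ 2 := by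
    have h3 : ((q.num : ℤ) : ℚ) * q.den = ((ε * A : ℤ) : ℚ) * (b : ℚ) ^ 2 := by
      have h4 : q.num * q.den = ε * A * b ^ 2 := by
        have h5 : (q.num.natAbs : ℤ) * q.den = b ^ 2 * A := by exact_mod_cast hbA.symm
        rw [hεn, mul_assoc, h5]
        ring
      exact_mod_cast h4
    have h6 : q * q.den = q.num := Rat.mul_den_eq_num q
    rw [div_pow, mul_div_assoc', eq_div_iff (pow_ne_zero 2 hden), ← h3]
    calc q * (q.den : ℚ) ^ 2 = (q * q.den) * q.den := by ring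
      _ = q.num * q.den := by rw [h6]
  obtain ⟨R, hR⟩ : ∃ R : F, R = algebraMap ℚ F ((b : ℚ) / q.den) := ⟨_, rfl⟩
  have hR0 : R ≠ 0 := by
    rw [hR, Ne, map_eq_zero]
    exact div_ne_zero (by exact_mod_cast hb0) hden
  have haR : algebraMap ℚ F q = ((ε * A : ℤ) : F) * R ^ 2 := by
    conv_lhs => rw [hqe]
    rw [map_mul, map_pow, ← hR]
    simp
  have hεu : ∀ p : ℕ, p.Prime → ∀ m : ℤ, ¬ (p : ℤ) ∣ m → ¬ (p : ℤ) ∣ ε * m := by
    intro p hp m hm
    rcases hε with rfl | rfl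
    · rwa [one_mul]
    · rw [neg_one_mul, dvd_neg]
      exact hm
  have hodd : ∀ p : ℕ, p.Prime → p ∣ A → p = 2 := by
    intro p hp hpA
    by_contra hp2
    obtain ⟨v, hv⟩ := exists_prime h hp
    have hnD : ¬ Dy v := by
      intro hD
      have hD' : (2 : 𝓞 F) ∈ v.asIdeal := hD
      have h3 := (mem_iff h hv 2).1 (by simpa using hD')
      have h4 : p ∣ 2 := by exact_mod_cast h3
      exact hp2 ((Nat.prime_dvd_prime_iff_eq hp Nat.prime_two).1 h4)
    apply h1 v hnD
    obtain ⟨m, hm⟩ := hpA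
    have hpm : ¬ p ∣ m := by
      rintro ⟨c, rfl⟩
      have h5 := hA p ⟨c, by rw [hm]; ring⟩
      exact hp.one_lt.ne' (Nat.isUnit_iff.1 h5)
    have h6 := od_of h hp hv (hεu p hp m (by exact_mod_cast hpm)) hR0
    rw [haR, hm]
    convert! h6 using 3
    push_cast
    ring
  have hAp : A = 2 ^ A.primeFactorsList.length :=
    Nat.eq_prime_pow_of_unique_prime_dvd hA.ne_zero fun {d} hd hdA => hodd d hd hdA
  have hA12 : A = 1 ∨ A = 2 := by
    rcases Nat.lt_or_ge A.primeFactorsList.length 2 with h3 | h3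
    · interval_cases h4 : A.primeFactorsList.length
      · left; rw [hAp]; rfl
      · right; rw [hAp]; rfl
    · exfalso
      have h4 : 2 * 2 ∣ A := by
        rw [hAp]
        exact ⟨2 ^ (A.primeFactorsList.length - 2), by
          rw [← sq, ← pow_add]
          congr 1
          omega⟩
      have h5 := Nat.isUnit_iff.1 (hA 2 h4)
      omega
  rcases hA12 with rfl | rfl
  · rcases hε with rfl | rfl
    · rw [haR]
      exact ⟨R, by push_cast; ring⟩
    · exfalso
      obtain ⟨x, hx⟩ := hL 1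
      obtain ⟨r, hr⟩ := rat_surj h (R * x)
      have h3 : algebraMap ℚ F q * x ^ 2 - 1 = -(algebraMap ℚ F (r ^ 2 + 1)) := by
        rw [haR, map_add, map_pow, hr, map_one]
        push_cast
        ring
      rw [h3, Valuation.map_neg] at hx
      have hrd : ((r.den : ℤ) : F) ≠ 0 := by exact_mod_cast r.den_nz
      have h4 : algebraMap ℚ F (r ^ 2 + 1) * ((r.den : ℤ) : F) ^ 2 = ((r.num ^ 2 + r.den ^ 2 : ℤ) : F) := by
        have h5 : (r ^ 2 + 1) * (r.den : ℚ) ^ 2 = ((r.num ^ 2 + r.den ^ 2 : ℤ) : ℚ) := by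
          have h6 : r * r.den = r.num := Rat.mul_den_eq_num r
          push_cast
          rw [← h6]
          ring
        have h7 := congrArg (algebraMap ℚ F) h5
        rw [map_mul] at h7
        simpa using h7
      have h8 : v2.valuation F ((r.num ^ 2 + r.den ^ 2 : ℤ) : F) < WithZero.exp (-1 : ℤ) := by
        rw [← h4, map_mul]
        have h9 : v2.valuation F (((r.den : ℤ) : F) ^ 2) ≤ 1 := by
          have := v2.valuation_le_one (K := F) (((r.den : ℤ) : 𝓞 F) ^ 2)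
          simpa using this
        exact lt_of_le_of_lt (mul_le_of_le_one_right' h9) (by simpa using hx)
      have hcop := r.reduced
      by_cases hpar : (2 : ℤ) ∣ r.num ^ 2 + r.den ^ 2
      · -- both odd
        obtain ⟨m, hm⟩ := hpar
        have hn1 : ¬ (2 : ℤ) ∣ r.num := by
          intro hd
          have hd2 : (2 : ℤ) ∣ (r.den : ℤ) := by
            have h10 : (2 : ℤ) ∣ (r.den : ℤ) ^ 2 := by
              have h11 : (r.den : ℤ) ^ 2 = 2 * m - r.num * r.num := by linarith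
              rw [h11]
              exact dvd_sub (dvd_mul_right 2 m) (Dvd.dvd.mul_left hd _)
            exact Int.prime_two.dvd_of_dvd_pow h10
          have h12 : 2 ∣ Nat.gcd r.num.natAbs r.den :=
            Nat.dvd_gcd (by omega) (by omega)
          rw [hcop] at h12
          omega
        have hn2 : ¬ (2 : ℤ) ∣ (r.den : ℤ) := by
          intro hd
          apply hn1
          have h10 : (2 : ℤ) ∣ r.num ^ 2 := by
            have h11 : r.num ^ 2 = 2 * m - (r.den : ℤ) * (r.den : ℤ) := by linarith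
            rw [h11]
            exact dvd_sub (dvd_mul_right 2 m) (Dvd.dvd.mul_left hd _)
          exact Int.prime_two.dvd_of_dvd_pow h10
        have hm2 : ¬ ((2 : ℕ) : ℤ) ∣ m := by
          obtain ⟨c, hc⟩ : ∃ c, r.num = 2 * c + 1 := ⟨r.num / 2, by omega⟩
          obtain ⟨d, hd⟩ : ∃ d, (r.den : ℤ) = 2 * d + 1 := ⟨(r.den : ℤ) / 2, by omega⟩
          rw [hc, hd] at hm
          intro hdm
          have hdm' : (2 : ℤ) ∣ m := hdm
          have h13 : m = 2 * (c ^ 2 + c + d ^ 2 + d) + 1 := by nlinarith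
          omega
        have h14 := val_one h hv2 hm2
        rw [hm, Int.cast_mul, map_mul, h14, mul_one] at h8
        have h15 := val_p (F := F) Nat.prime_two hv2
        exact absurd h8 (by
          rw [not_lt]
          exact le_of_eq (by rw [← h15]; simp))
      · have h14 := val_one h hv2 (n := r.num ^ 2 + r.den ^ 2) (by exact_mod_cast hpar)
        rw [h14] at h8
        exact absurd h8 (not_lt.2 (by
          rw [← WithZero.exp_zero]
          exact WithZero.exp_le_exp.2 (by norm_num)))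
  · exfalso
    apply (b1 _ hL).2
    have h6 := od_of h Nat.prime_two hv2 (hεu 2 Nat.prime_two 1 (by norm_num)) hR0
    rw [haR]
    convert! h6 using 3
    push_cast
    ring

end Pool.Agent.Q68.LS
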